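import Mathlib

/-! # Squarefree primitive polynomials and dilations -/

set_option autoImplicit false

open Polynomial

namespace Pool.Agent.N805.CP

/-- the dilated polynomial -/
noncomputable def dil (f : ℤ[X]) (p : ℕ) : ℤ[X] := f.comp (C (p : ℤ) * X)

lemma dil_eval (f : ℤ[X]) (p : ℕ) (t : ℤ) : (dil f p).eval t = f.eval (p * t) := by
  unfold dil; simp [eval_comp]

lemma dil_coeff (f : ℤ[X]) (p i : ℕ) : (dil f p).coeff i = f.coeff i * (p : ℤ) ^ i := by
  unfold dil; rw [comp_C_mul_X_coeff]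

lemma dil_natDegree (f : ℤ[X]) {p : ℕ} (hp : p ≠ 0) : (dil f p).natDegree = f.natDegree := by
  unfold dil
  rw [natDegree_comp, natDegree_C_mul_X _ (by exact_mod_cast hp), mul_one]

lemma dil_prim {f : ℤ[X]} (hf : f.IsPrimitive) {p : ℕ} (hp : p.Prime) (h0 : ¬ (p : ℤ) ∣ f.coeff 0) :
    (dil f p).IsPrimitive := by
  rw [isPrimitive_iff_isUnit_of_C_dvd]
  intro r hr
  rw [C_dvd_iff_dvd_coeff] at hr
  rw [isPrimitive_iff_isUnit_of_C_dvd] at hf
  apply hf
  rw [C_dvd_iff_dvd_coeff]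
  have h1 : r ∣ f.coeff 0 := by
    have := hr 0
    rwa [dil_coeff, pow_zero, mul_one] at this
  have h2 : IsCoprime r (p : ℤ) := by
    have h3 : Prime (p : ℤ) := Nat.prime_iff_prime_int.1 hp
    have h4 : IsCoprime (p : ℤ) r := by
      rw [h3.coprime_iff_not_dvd]
      exact fun h => h0 (h.trans h1)
    exact h4.symm
  intro i
  have h3 := hr i
  rw [dil_coeff] at h3
  exact (h2.pow_right).dvd_of_dvd_mul_right h3

lemma dil_sqf {f : ℤ[X]} (hf : f.IsPrimitive) (hs : Squarefree f) {p : ℕ} (hp : p.Prime)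
    (h0 : ¬ (p : ℤ) ∣ f.coeff 0) : Squarefree (dil f p) := by
  intro x hx
  have hprim := dil_prim hf hp h0
  have hxp : x.IsPrimitive := isPrimitive_of_dvd hprim ((Dvd.intro _ rfl).trans hx)
  obtain ⟨y, hy⟩ := hx
  have hp0 : (p : ℤ) ≠ 0 := by exact_mod_cast hp.ne_zero
  have h1 : (dil f p).scaleRoots p = C ((p : ℤ) ^ f.natDegree) * f := by
    ext i
    rw [coeff_scaleRoots, dil_coeff, dil_natDegree f hp.ne_zero, coeff_C_mul]
    rcases le_or_gt i f.natDegree with h | h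
    · rw [mul_assoc, ← pow_add, Nat.add_sub_cancel' h, mul_comm]
    · rw [coeff_eq_zero_of_natDegree_lt h]; ring
  have h2 : (x.scaleRoots p * x.scaleRoots p) * y.scaleRoots p = C ((p : ℤ) ^ f.natDegree) * f := by
    rw [← h1, hy, mul_scaleRoots_of_noZeroDivisors, mul_scaleRoots_of_noZeroDivisors]
  have h3 : (x.scaleRoots p).primPart * (x.scaleRoots p).primPart ∣ C ((p : ℤ) ^ f.natDegree) * f :=
    (mul_dvd_mul (primPart_dvd _) (primPart_dvd _)).trans (Dvd.intro _ h2)
  have h4 : ((x.scaleRoots p).primPart * (x.scaleRoots p).primPart).IsPrimitive :=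
    (isPrimitive_primPart _).mul (isPrimitive_primPart _)
  have h5 : (x.scaleRoots p).primPart * (x.scaleRoots p).primPart ∣ f := by
    apply IsPrimitive.dvd_of_fraction_map_dvd_fraction_map (K := ℚ) h4
    have h6 := Polynomial.map_dvd (algebraMap ℤ ℚ) h3
    rw [Polynomial.map_mul (p := C ((p : ℤ) ^ f.natDegree)), map_C] at h6
    refine (IsUnit.dvd_mul_left ?_).1 h6
    rw [isUnit_C, isUnit_iff_ne_zero]
    simp only [algebraMap_int_eq, eq_intCast, Int.cast_pow, Int.cast_natCast]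
    exact pow_ne_zero _ (by exact_mod_cast hp.ne_zero)
  have h6 := hs _ h5
  have h7 : x.natDegree = 0 := by
    have h8 := natDegree_eq_zero_of_isUnit h6
    rwa [natDegree_primPart, natDegree_scaleRoots] at h8
  rw [eq_C_of_natDegree_eq_zero h7] at hxp ⊢
  rw [isUnit_C]
  exact isPrimitive_iff_isUnit_of_C_dvd.1 hxp _ dvd_rfl

lemma dil_rel {f : ℤ[X]} (hf : f.IsPrimitive) {p q : ℕ} (hp : p.Prime) (hq : q.Prime) (hpq : p ≠ q)
    (h0 : ¬ (p : ℤ) ∣ f.coeff 0) (h0q : ¬ (q : ℤ) ∣ f.coeff 0) (hl : ¬ (p : ℤ) ∣ f.leadingCoeff) :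
    IsRelPrime (dil f p) (dil f q) := by
  intro h h1 h2
  have hprim := dil_prim hf hp h0
  have hhp : h.IsPrimitive := isPrimitive_of_dvd hprim h1
  have hpp : Prime (p : ℤ) := Nat.prime_iff_prime_int.1 hp
  have hdeg : h.natDegree = 0 := by
    by_contra hne
    -- modulo `p`
    haveI : Fact p.Prime := ⟨hp⟩
    have h3 : (dil f p).map (Int.castRingHom (ZMod p)) = C ((f.coeff 0 : ℤ) : ZMod p) := by
      ext i
      rw [coeff_map, dil_coeff, coeff_C]
      split_ifs with hi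
      · rw [hi]; simp
      · simp [hi]
    have h4 : IsUnit (C ((f.coeff 0 : ℤ) : ZMod p)) := by
      rw [isUnit_C, isUnit_iff_ne_zero]
      intro h5
      exact h0 ((ZMod.intCast_zmod_eq_zero_iff_dvd _ _).1 h5)
    have h5 : IsUnit (h.map (Int.castRingHom (ZMod p))) := by
      apply isUnit_of_dvd_unit _ h4
      rw [← h3]
      exact Polynomial.map_dvd _ h1
    have h6 := natDegree_eq_zero_of_isUnit h5
    have h7 : (h.map (Int.castRingHom (ZMod p))).coeff h.natDegree = 0 := by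
      apply coeff_eq_zero_of_natDegree_lt
      omega
    rw [coeff_map] at h7
    have h8 : (p : ℤ) ∣ h.leadingCoeff := (ZMod.intCast_zmod_eq_zero_iff_dvd _ _).1 (by simpa using h7)
    obtain ⟨y, hy⟩ := h2
    have h9 : (dil f q).leadingCoeff = f.leadingCoeff * (q : ℤ) ^ f.natDegree := by
      rw [leadingCoeff, dil_natDegree f hq.ne_zero, dil_coeff]
      rfl
    have h10 : h.leadingCoeff ∣ f.leadingCoeff * (q : ℤ) ^ f.natDegree := by
      rw [← h9, hy, leadingCoeff_mul]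
      exact Dvd.intro _ rfl
    rcases hpp.dvd_or_dvd (h8.trans h10) with h11 | h11
    · exact hl h11
    · have h12 := hpp.dvd_of_dvd_pow h11
      have h13 : p ∣ q := by exact_mod_cast h12
      exact hpq ((Nat.prime_dvd_prime_iff_eq hp hq).1 h13)
  rw [eq_C_of_natDegree_eq_zero hdeg] at hhp ⊢
  rw [isUnit_C]
  exact isPrimitive_iff_isUnit_of_C_dvd.1 hhp _ dvd_rfl

lemma taylor_prim {f : ℤ[X]} (hf : f.IsPrimitive) (b : ℤ) : (taylor b f).IsPrimitive := by
  rw [isPrimitive_iff_isUnit_of_C_dvd] at hf ⊢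
  intro r hr
  apply hf
  have h1 := map_dvd (taylorEquiv (-b)) hr
  have h2 : (taylorEquiv (-b)) (C r) = C r := by
    show taylor (-b) (C r) = C r
    exact taylor_C _ _
  have h3 : (taylorEquiv (-b)) (taylor b f) = f := by
    show taylor (-b) (taylor b f) = f
    rw [taylor_taylor]; simp
  rwa [h2, h3] at h1

lemma taylor_sqf {f : ℤ[X]} (hs : Squarefree f) (b : ℤ) : Squarefree (taylor b f) := by
  intro x hx
  have h1 := map_dvd (taylorEquiv (-b)) hx
  have h3 : (taylorEquiv (-b)) (taylor b f) = f := by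
    show taylor (-b) (taylor b f) = f
    rw [taylor_taylor]; simp
  rw [h3, map_mul] at h1
  have h4 := hs _ h1
  exact (MulEquiv.isUnit_map (taylorEquiv (-b))).1 h4

lemma ev_ne {f : ℤ[X]} (hf : f ≠ 0) : ∃ m0 : ℕ, ∀ m : ℕ, m0 ≤ m → f.eval (m : ℤ) ≠ 0 := by
  have h1 : {x : ℤ | f.IsRoot x}.Finite := by
    have : {x : ℤ | f.IsRoot x} ⊆ (f.roots.toFinset : Set ℤ) := by
      intro x hx
      rw [Finset.mem_coe, Multiset.mem_toFinset, mem_roots hf]
      exact hx
    exact (Finset.finite_toSet _).subset this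
  have h2 : {m : ℕ | f.IsRoot (m : ℤ)}.Finite := h1.preimage (Nat.cast_injective.injOn)
  obtain ⟨B, hB⟩ := h2.bddAbove
  refine ⟨B + 1, fun m hm h => ?_⟩
  have := hB (show m ∈ {m : ℕ | f.IsRoot (m : ℤ)} from h)
  omega

end Pool.Agent.N805.CP
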