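import Pool.Agent.N805.CP.A

/-! # Squarefree polynomials over the integers and over the rationals -/

set_option autoImplicit false

open Polynomial

namespace Pool.Agent.N805.CP

lemma unit_of_const {x : ℤ[X]} (hx : x.IsPrimitive) (h : x.natDegree = 0) : IsUnit x := by
  rw [eq_C_of_natDegree_eq_zero h] at hx ⊢
  rw [isUnit_C]
  exact isPrimitive_iff_isUnit_of_C_dvd.1 hx _ dvd_rfl

/-- primitive and squarefree over `ℤ` gives squarefree over `ℚ` -/
lemma sqf_map {f : ℤ[X]} (hf : f.IsPrimitive) (hs : Squarefree f) : Squarefree (f.map (algebraMap ℤ ℚ)) := by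
  intro y hy
  have hf0 : f.map (algebraMap ℤ ℚ) ≠ 0 := by
    rw [Polynomial.map_ne_zero_iff (RingHom.injective_int _)]
    exact hf.ne_zero
  have hy0 : y ≠ 0 := by
    rintro rfl
    rw [zero_mul, zero_dvd_iff] at hy
    exact hf0 hy
  obtain ⟨⟨b, hb⟩, hbe⟩ := IsLocalization.integerNormalization_map_to_map (nonZeroDivisors ℤ) y
  obtain ⟨Y, hY⟩ : ∃ Y : ℤ[X], Y = IsLocalization.integerNormalization (nonZeroDivisors ℤ) y := ⟨_, rfl⟩
  rw [← hY] at hbe
  have hb0 : (algebraMap ℤ ℚ) b ≠ 0 := by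
    simpa using nonZeroDivisors.ne_zero hb
  have e1 : Y.map (algebraMap ℤ ℚ) = C ((algebraMap ℤ ℚ) b) * y := by
    rw [hbe, ← smul_eq_C_mul]
    exact (algebraMap_smul ℚ b y).symm
  have hY0 : Y ≠ 0 := by
    rintro rfl
    rw [Polynomial.map_zero] at e1
    rcases mul_eq_zero.1 e1.symm with h | h
    · exact hb0 (C_eq_zero.1 h)
    · exact hy0 h
  have hc0 : (algebraMap ℤ ℚ) Y.content ≠ 0 := by
    simpa using content_eq_zero_iff.not.2 hY0
  have e2 : Y.map (algebraMap ℤ ℚ) = C ((algebraMap ℤ ℚ) Y.content) * Y.primPart.map (algebraMap ℤ ℚ) := by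
    conv_lhs => rw [Y.eq_C_content_mul_primPart]
    rw [Polynomial.map_mul, map_C]
  have hu1 : IsUnit (C ((algebraMap ℤ ℚ) b) : ℚ[X]) := isUnit_C.2 (isUnit_iff_ne_zero.2 hb0)
  have hu2 : IsUnit (C ((algebraMap ℤ ℚ) Y.content) : ℚ[X]) := isUnit_C.2 (isUnit_iff_ne_zero.2 hc0)
  have e3 : Associated (Y.primPart.map (algebraMap ℤ ℚ)) y := by
    have h1 : Associated (C ((algebraMap ℤ ℚ) Y.content) * Y.primPart.map (algebraMap ℤ ℚ))
        (Y.primPart.map (algebraMap ℤ ℚ)) := associated_unit_mul_left _ _ hu2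
    have h2 : Associated (C ((algebraMap ℤ ℚ) b) * y) y := associated_unit_mul_left _ _ hu1
    rw [← e2, e1] at h1
    exact h1.symm.trans h2
  have h4 : Y.primPart * Y.primPart ∣ f := by
    apply IsPrimitive.dvd_of_fraction_map_dvd_fraction_map (K := ℚ)
      ((isPrimitive_primPart _).mul (isPrimitive_primPart _))
    rw [Polynomial.map_mul]
    exact (e3.mul_mul e3).dvd.trans hy
  have h5 := hs _ h4
  have h6 : IsUnit (Y.primPart.map (algebraMap ℤ ℚ)) := h5.map (Polynomial.mapRingHom (algebraMap ℤ ℚ))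
  exact (e3.isUnit_iff).1 h6

/-- squarefree over `ℚ` gives squarefree primitive part -/
lemma sqf_of_map {f : ℤ[X]} (hs : Squarefree (f.map (algebraMap ℤ ℚ))) :
    Squarefree f.primPart := by
  intro x hx
  have hxp : x.IsPrimitive := isPrimitive_of_dvd (isPrimitive_primPart f) ((Dvd.intro _ rfl).trans hx)
  have h1 := Polynomial.map_dvd (algebraMap ℤ ℚ) (hx.trans (primPart_dvd f))
  rw [Polynomial.map_mul] at h1
  have h2 := hs _ h1
  apply unit_of_const hxp
  have h3 := natDegree_eq_zero_of_isUnit h2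
  rwa [natDegree_map_eq_of_injective (RingHom.injective_int _)] at h3

/-- substitution of `(X - B) / α` up to a constant -/
noncomputable def sub (h : ℤ[X]) (α : ℕ) (B : ℤ) : ℤ[X] := taylor (-B) (h.scaleRoots (α : ℤ))

lemma sub_eval (h : ℤ[X]) (α : ℕ) (B m : ℤ) :
    (sub h α B).eval (α * m + B) = (α : ℤ) ^ h.natDegree * h.eval m := by
  unfold sub
  rw [taylor_eval]
  have e : (α : ℤ) * m + B + -B = α * m := by ring
  rw [e, scaleRoots_eval_mul]

lemma sub_natDegree (h : ℤ[X]) (α : ℕ) (B : ℤ) : (sub h α B).natDegree = h.natDegree := by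
  unfold sub
  rw [natDegree_taylor, natDegree_scaleRoots]

/-- squarefree is kept under affine substitutions over the rationals -/
lemma sqf_comp {f g : ℚ[X]} {a b : ℚ} (ha : a ≠ 0) (hg : g = f.comp (C a * X + C b)) (hs : Squarefree g) :
    Squarefree f := by
  intro x hx
  have h1 : x.comp (C a * X + C b) * x.comp (C a * X + C b) ∣ g := by
    obtain ⟨y, hy⟩ := hx
    rw [hg, hy]
    exact ⟨y.comp (C a * X + C b), by rw [mul_comp, mul_comp]⟩
  have h2 := hs _ h1
  have h3 : x = (x.comp (C a * X + C b)).comp (C a⁻¹ * X + C (-(a⁻¹ * b))) := by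
    rw [comp_assoc]
    have : (C a * X + C b).comp (C a⁻¹ * X + C (-(a⁻¹ * b))) = (X : ℚ[X]) := by
      simp only [add_comp, mul_comp, C_comp, X_comp]
      rw [mul_add, ← mul_assoc, ← C_mul, ← C_mul, mul_inv_cancel₀ ha, C_1, one_mul, add_assoc, ← C_add]
      have : a * -(a⁻¹ * b) + b = 0 := by field_simp; ring
      rw [this, C_0, add_zero]
    rw [this, comp_X]
  rw [h3]
  have h4 := natDegree_eq_zero_of_isUnit h2
  have h5 := eq_C_of_natDegree_eq_zero h4
  rw [h5] at h2 ⊢
  rwa [C_comp]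

lemma sub_sqf {h : ℤ[X]} (hs : Squarefree (h.map (algebraMap ℤ ℚ))) {α : ℕ} (hα : 0 < α) (B : ℤ) :
    Squarefree (sub h α B).primPart := by
  apply sqf_of_map
  have hα0 : (α : ℚ) ≠ 0 := by exact_mod_cast hα.ne'
  have key : ((sub h α B).map (algebraMap ℤ ℚ)).comp (C (α : ℚ) * X + C (B : ℚ)) =
      C ((α : ℚ) ^ h.natDegree) * h.map (algebraMap ℤ ℚ) := by
    apply Polynomial.funext
    intro r
    rw [eval_comp, eval_mul, eval_C]
    unfold sub
    rw [map_taylor, taylor_eval, map_scaleRoots _ _ _ (by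
      rcases eq_or_ne h 0 with h0 | h0
      · rw [h0, Polynomial.map_zero] at hs
        exact absurd hs not_squarefree_zero
      · simpa using h0)]
    have e : eval r (C (α : ℚ) * X + C (B : ℚ)) + (algebraMap ℤ ℚ) (-B) = (algebraMap ℤ ℚ) (α : ℤ) * r := by
      simp
    rw [e]
    have e2 := scaleRoots_eval_mul (h.map (algebraMap ℤ ℚ)) r ((algebraMap ℤ ℚ) (α : ℤ))
    rw [e2, natDegree_map_eq_of_injective (RingHom.injective_int _)]
    simp
  refine sqf_comp hα0 (b := (B : ℚ)) key.symm ?_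
  have hu : IsUnit (C ((α : ℚ) ^ h.natDegree) : ℚ[X]) := isUnit_C.2 (isUnit_iff_ne_zero.2 (pow_ne_zero _ hα0))
  exact (associated_unit_mul_left _ _ hu).symm.squarefree_iff.1 hs

end Pool.Agent.N805.CP
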