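import Pool.Agent.N805.CP.A
import Pool.Agent.N805.CH.C

/-! # Liouville's function at polynomials: degree `2d` from above bounds degree `d` -/

set_option autoImplicit false

open Polynomial Finset Filter Topology

namespace Pool.Agent.N805.CP

open Pool.Agent.N805.CH (Co onesided sum_class)

/-- Liouville's function on the integers -/
noncomputable def lz (z : ℤ) : ℝ := (-1) ^ ArithmeticFunction.cardFactors z.natAbs

lemma lz_abs (z : ℤ) : |lz z| = 1 := by unfold lz; simp

lemma lz_mul {z w : ℤ} (hz : z ≠ 0) (hw : w ≠ 0) : lz (z * w) = lz z * lz w := by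
  unfold lz
  rw [Int.natAbs_mul, ArithmeticFunction.cardFactors_mul (Int.natAbs_ne_zero.2 hz) (Int.natAbs_ne_zero.2 hw),
    pow_add]

/-- the sum along a progression -/
noncomputable def Sp (f : ℤ[X]) (a q N : ℕ) : ℝ :=
  ∑ t ∈ Ioc 0 N, if t % q = a % q then lz (f.eval (t : ℤ)) else 0

theorem bound {f : ℤ[X]} (hf : f.IsPrimitive) (hs : Squarefree f) {η : ℝ} (hη : 0 ≤ η)
    (H : ∀ G K : ℤ[X], G.natDegree = f.natDegree → K.natDegree = f.natDegree → (G * K).IsPrimitive →
      Squarefree (G * K) → ∀ a q : ℕ, 0 < q → ∀ ε : ℝ, 0 < ε →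
        ∀ᶠ N : ℕ in atTop, Sp (G * K) a q N ≤ (η / q + ε) * N) (a q : ℕ) (hq : 0 < q) :
    ∀ ε : ℝ, 0 < ε → ∀ᶠ N : ℕ in atTop, |Sp f a q N| ≤ (√η / q + ε) * N := by
  classical
  have hq0 : (0 : ℝ) < q := by exact_mod_cast hq
  obtain ⟨m0, hm0⟩ := ev_ne hf.ne_zero
  obtain ⟨b, hb⟩ : ∃ b : ℕ, b = m0 * q := ⟨_, rfl⟩
  have hbq : b % q = 0 := by rw [hb]; exact Nat.mul_mod_left _ _
  have hbm : m0 ≤ b := by rw [hb]; exact Nat.le_mul_of_pos_right _ hq
  obtain ⟨f0, hf0⟩ : ∃ f0 : ℤ[X], f0 = taylor (b : ℤ) f := ⟨_, rfl⟩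
  have hc0 : f0.coeff 0 ≠ 0 := by rw [hf0, taylor_coeff_zero]; exact hm0 b hbm
  have hp0 : f0.IsPrimitive := by rw [hf0]; exact taylor_prim hf _
  have hs0 : Squarefree f0 := by rw [hf0]; exact taylor_sqf hs _
  have hd0 : f0.natDegree = f.natDegree := by rw [hf0, natDegree_taylor]
  have hev : ∀ n : ℕ, f0.eval (n : ℤ) = f.eval ((n + b : ℕ) : ℤ) := by
    intro n
    rw [hf0, taylor_eval]
    push_cast
    rfl
  obtain ⟨m1, hm1⟩ := ev_ne hp0.ne_zero
  obtain ⟨g, hg⟩ : ∃ g : ℕ → ℝ, g = fun n => if n % q = a % q then lz (f0.eval (n : ℤ)) else 0 := ⟨_, rfl⟩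
  have hgle : ∀ n, |g n| ≤ 1 := by
    intro n
    rw [hg]
    simp only
    split_ifs
    · rw [lz_abs]
    · simp
  have hgs : ∀ n, g n ≠ 0 → n % q = a % q := by
    intro n hn
    rw [hg] at hn
    simp only at hn
    by_contra h
    rw [if_neg h] at hn
    exact hn rfl
  obtain ⟨P0, hP0⟩ : ∃ P0 : ℕ, P0 = q + (f0.coeff 0).natAbs + f0.leadingCoeff.natAbs := ⟨_, rfl⟩
  have hnd : ∀ (p : ℕ) (z : ℤ), z ≠ 0 → z.natAbs < p → ¬ (p : ℤ) ∣ z := by
    intro p z hz hzp hd
    have h1 := Int.natAbs_dvd_natAbs.2 hd
    rw [Int.natAbs_natCast] at h1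
    have h2 := Nat.le_of_dvd (Int.natAbs_pos.2 hz) h1
    omega
  have hlead : f0.leadingCoeff ≠ 0 := leadingCoeff_ne_zero.2 hp0.ne_zero
  have hone := onesided (A := q) (r := a % q) (P0 := P0) hq hgle hgs
    (f := fun _ => 1) (fun n => by simp) (fun m n _ _ => by ring) (s := 1) (fun p _ => rfl) hη
    (fun p p' hp hp' hpp hpP hpP' hmod => by
      intro ε hε
      by_cases hex : ∃ s0, (p * s0) % q = a % q
      · obtain ⟨s0, hs0'⟩ := hex
        have hcop : Nat.Coprime q p := by
          rw [Nat.coprime_comm, Nat.Prime.coprime_iff_not_dvd hp]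
          intro hd
          have := Nat.le_of_dvd hq hd
          omega
        have hcls : ∀ m, (p * m) % q = a % q ↔ m % q = s0 % q := by
          intro m
          rw [← hs0']
          constructor
          · intro h
            exact Nat.ModEq.cancel_left_of_coprime hcop h
          · intro h
            exact Nat.ModEq.mul_left p h
        have hcls' : ∀ m, (p' * m) % q = a % q ↔ m % q = s0 % q := by
          intro m
          rw [← hcls m]
          have : (p' * m) % q = (p * m) % q := Nat.ModEq.mul_right m hmod.symm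
          rw [this]
        have n1 := hnd p _ hc0 (by omega)
        have n2 := hnd p' _ hc0 (by omega)
        have n3 := hnd p _ hlead (by omega)
        have hFp : (dil f0 p * dil f0 p').IsPrimitive := (dil_prim hp0 hp n1).mul (dil_prim hp0 hp' n2)
        have hFs : Squarefree (dil f0 p * dil f0 p') :=
          squarefree_mul_iff.2 ⟨dil_rel hp0 hp hp' hpp n1 n2 n3, dil_sqf hp0 hs0 hp n1, dil_sqf hp0 hs0 hp' n2⟩
        have h1 := H (dil f0 p) (dil f0 p') (by rw [dil_natDegree _ hp.ne_zero, hd0])
          (by rw [dil_natDegree _ hp'.ne_zero, hd0]) hFp hFs s0 q hq (ε / 2) (by positivity)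
        obtain ⟨N2, hN2⟩ := exists_nat_ge (4 * (m1 : ℝ) / ε)
        filter_upwards [h1, eventually_ge_atTop N2] with M hM hM2
        have h2 : Co g p p' M ≤ Sp (dil f0 p * dil f0 p') s0 q M + 2 * m1 := by
          have h3 : Co g p p' M - Sp (dil f0 p * dil f0 p') s0 q M ≤ ∑ m ∈ Ioc 0 M, if m < m1 then (2 : ℝ) else 0 := by
            unfold Co Sp
            rw [← Finset.sum_sub_distrib]
            refine Finset.sum_le_sum fun m _ => ?_
            split_ifs with h4 h5 h5
            · have h6 := hgle (p * m)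
              have h7 := hgle (p' * m)
              have h8 : |g (p * m) * g (p' * m)| ≤ 1 := by
                rw [abs_mul]
                calc |g (p * m)| * |g (p' * m)| ≤ 1 * 1 := mul_le_mul h6 h7 (abs_nonneg _) zero_le_one
                  _ = 1 := by ring
              have h9 := lz_abs (eval (m : ℤ) (dil f0 p * dil f0 p'))
              have h10 := (abs_le.1 h8).2
              have h11 := (abs_le.1 h9.le).1
              linarith
            · have h6 : g (p * m) * g (p' * m) = lz (eval (m : ℤ) (dil f0 p * dil f0 p')) := by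
                rw [eval_mul, dil_eval, dil_eval, hg]
                simp only
                rw [if_pos ((hcls m).2 h4), if_pos ((hcls' m).2 h4)]
                have e1 : (((p * m : ℕ)) : ℤ) = (p : ℤ) * m := by push_cast; rfl
                have e2 : (((p' * m : ℕ)) : ℤ) = (p' : ℤ) * m := by push_cast; rfl
                rw [lz_mul]
                · rw [e1, e2]
                · rw [← e1]
                  exact hm1 _ ((not_lt.1 h5).trans (Nat.le_mul_of_pos_left _ hp.pos))
                · rw [← e2]
                  exact hm1 _ ((not_lt.1 h5).trans (Nat.le_mul_of_pos_left _ hp'.pos))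
              rw [h6, sub_self]
            · have h6 : g (p * m) = 0 := by
                rw [hg]
                simp only
                rw [if_neg (fun h => h4 ((hcls m).1 h))]
              rw [h6]; norm_num
            · have h6 : g (p * m) = 0 := by
                rw [hg]
                simp only
                rw [if_neg (fun h => h4 ((hcls m).1 h))]
              rw [h6]; norm_num
          have h4 : ∑ m ∈ Ioc 0 M, (if m < m1 then (2 : ℝ) else 0) ≤ 2 * m1 := by
            rw [← Finset.sum_filter, Finset.sum_const, nsmul_eq_mul, mul_comm]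
            have h5 : ((Ioc 0 M).filter fun m => m < m1) ⊆ Finset.range m1 := by
              intro m hm
              rw [Finset.mem_range]
              exact (Finset.mem_filter.1 hm).2
            have h6 := Finset.card_le_card h5
            rw [Finset.card_range] at h6
            have h7 : (((Ioc 0 M).filter fun m => m < m1).card : ℝ) ≤ m1 := by exact_mod_cast h6
            linarith
          linarith
        have h3 : 2 * (m1 : ℝ) ≤ ε / 2 * M := by
          have h4 : 4 * (m1 : ℝ) / ε ≤ M := hN2.trans (by exact_mod_cast hM2)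
          rw [div_le_iff₀ hε] at h4
          linarith
        linarith
      · push Not at hex
        have h0 : ∀ m, g (p * m) = 0 := by
          intro m
          rw [hg]
          simp only
          rw [if_neg (hex m)]
        filter_upwards with M
        have h1 : Co g p p' M = 0 := by
          unfold Co
          refine Finset.sum_eq_zero fun m _ => ?_
          rw [h0, zero_mul]
        rw [h1]
        positivity)
  intro ε hε
  obtain ⟨N1, hN1⟩ := eventually_atTop.1 (hone (ε / 2) (by positivity))
  obtain ⟨N2, hN2⟩ := exists_nat_ge (2 * (b : ℝ) / ε)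
  filter_upwards [eventually_ge_atTop (max (N1 + b) N2)] with N hN
  have hNb : N1 + b ≤ N := (le_max_left _ _).trans hN
  have h2 : (b : ℝ) ≤ ε / 2 * N := by
    have h4 : 2 * (b : ℝ) / ε ≤ N := hN2.trans (by exact_mod_cast (le_max_right _ _).trans hN)
    rw [div_le_iff₀ hε] at h4
    linarith
  have h3 := hN1 (N - b) (by omega)
  have h4 : Sp f a q N = ∑ t ∈ Ioc 0 b, (if t % q = a % q then lz (f.eval (t : ℤ)) else 0) +
      ∑ n ∈ Ioc 0 (N - b), (1 : ℝ) * g n := by
    unfold Sp
    rw [← Finset.sum_Ioc_consecutive _ (Nat.zero_le b) (by omega : b ≤ N)]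
    congr 1
    have h5 := sum_class (A := 1) (s := b) (M := N)
      (F := fun t => if t % q = a % q then lz (f.eval (t : ℤ)) else 0) le_rfl (fun m _ _ => by omega)
    rw [h5, Nat.div_one]
    refine Finset.sum_congr rfl fun n _ => ?_
    rw [one_mul, one_mul, hg]
    simp only
    rw [hev n]
    have h6 : (n + b) % q = n % q := by
      rw [Nat.add_mod, hbq, add_zero, Nat.mod_mod]
    rw [h6]
  have h5 : |∑ t ∈ Ioc 0 b, (if t % q = a % q then lz (f.eval (t : ℤ)) else 0)| ≤ b := by
    refine (Finset.abs_sum_le_sum_abs _ _).trans ?_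
    calc ∑ t ∈ Ioc 0 b, |if t % q = a % q then lz (f.eval (t : ℤ)) else 0| ≤ ∑ t ∈ Ioc 0 b, (1 : ℝ) := by
          refine Finset.sum_le_sum fun t _ => ?_
          split_ifs
          · rw [lz_abs]
          · simp
      _ = b := by simp
  rw [h4]
  refine (abs_add_le _ _).trans ?_
  have h6 : ((N - b : ℕ) : ℝ) ≤ N := by exact_mod_cast Nat.sub_le N b
  have h7 : (√η / q + ε / 2) * ((N - b : ℕ) : ℝ) ≤ (√η / q + ε / 2) * N :=
    mul_le_mul_of_nonneg_left h6 (by positivity)
  linarith

end Pool.Agent.N805.CP
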