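import Pool.Agent.N805.CP.A2
import Pool.Agent.N805.CP.B

/-! # Liouville's function at polynomials with a linear factor -/

set_option autoImplicit false

open Polynomial Finset Filter Topology

namespace Pool.Agent.N805.CP

open Pool.Agent.N805.CH (Co onesided sum_class lam lam_abs lam_mul lam_prime lam_sq)

lemma lz_sq (z : ℤ) : lz z * lz z = 1 := by
  have := lz_abs z
  rw [← abs_mul_abs_self, this]; norm_num

/-- the correlations of `λ(h(n))`, `n > B`, in one class -/
lemma core {h : ℤ[X]} (hp0 : h.IsPrimitive) (hs0 : Squarefree h) (hc0 : h.coeff 0 ≠ 0) {η : ℝ} (hη : 0 ≤ η)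
    (H : ∀ G K : ℤ[X], G.natDegree = h.natDegree → K.natDegree = h.natDegree → (G * K).IsPrimitive →
      Squarefree (G * K) → ∀ a q : ℕ, 0 < q → ∀ ε : ℝ, 0 < ε →
        ∀ᶠ N : ℕ in atTop, Sp (G * K) a q N ≤ (η / q + ε) * N) {a q B : ℕ} (hq : 0 < q) {g : ℕ → ℝ}
    (hg : g = fun n => if n % q = a % q ∧ B < n then lz (h.eval (n : ℤ)) else 0) {p p' : ℕ} (hp : p.Prime)
    (hp' : p'.Prime) (hpp : p ≠ p') (hpP : q + (h.coeff 0).natAbs + h.leadingCoeff.natAbs < p)
    (hpP' : q + (h.coeff 0).natAbs + h.leadingCoeff.natAbs < p') (hmod : p % q = p' % q) :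
    ∀ ε : ℝ, 0 < ε → ∀ᶠ M : ℕ in atTop, Co g p p' M ≤ (η / q + ε) * M := by
  classical
  have hq0 : (0 : ℝ) < q := by exact_mod_cast hq
  obtain ⟨m1, hm1⟩ := ev_ne hp0.ne_zero
  have hgle : ∀ n, |g n| ≤ 1 := by
    intro n
    rw [hg]
    simp only
    split_ifs
    · rw [lz_abs]
    · simp
  have hnd : ∀ (p : ℕ) (z : ℤ), z ≠ 0 → z.natAbs < p → ¬ (p : ℤ) ∣ z := by
    intro p z hz hzp hd
    have h1 := Int.natAbs_dvd_natAbs.2 hd
    rw [Int.natAbs_natCast] at h1
    have h2 := Nat.le_of_dvd (Int.natAbs_pos.2 hz) h1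
    omega
  have hlead : h.leadingCoeff ≠ 0 := leadingCoeff_ne_zero.2 hp0.ne_zero
  intro ε hε
  by_cases hex : ∃ s0, (p * s0) % q = a % q
  · obtain ⟨s0, hs0'⟩ := hex
    have hcop : Nat.Coprime q p := by
      rw [Nat.coprime_comm, Nat.Prime.coprime_iff_not_dvd hp]
      intro hd
      have := Nat.le_of_dvd hq hd
      omega
    have hcls : ∀ m, (p * m) % q = a % q ↔ m % q = s0 % q := by
      intro m
      rw [← hs0']
      constructor
      · intro h
        exact Nat.ModEq.cancel_left_of_coprime hcop h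
      · intro h
        exact Nat.ModEq.mul_left p h
    have hcls' : ∀ m, (p' * m) % q = a % q ↔ m % q = s0 % q := by
      intro m
      rw [← hcls m]
      have : (p' * m) % q = (p * m) % q := Nat.ModEq.mul_right m hmod.symm
      rw [this]
    have n1 := hnd p _ hc0 (by omega)
    have n2 := hnd p' _ hc0 (by omega)
    have n3 := hnd p _ hlead (by omega)
    have hFp : (dil h p * dil h p').IsPrimitive := (dil_prim hp0 hp n1).mul (dil_prim hp0 hp' n2)
    have hFs : Squarefree (dil h p * dil h p') :=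
      squarefree_mul_iff.2 ⟨dil_rel hp0 hp hp' hpp n1 n2 n3, dil_sqf hp0 hs0 hp n1, dil_sqf hp0 hs0 hp' n2⟩
    have h1 := H (dil h p) (dil h p') (by rw [dil_natDegree _ hp.ne_zero])
      (by rw [dil_natDegree _ hp'.ne_zero]) hFp hFs s0 q hq (ε / 2) (by positivity)
    obtain ⟨N2, hN2⟩ := exists_nat_ge (4 * ((m1 + B + 1 : ℕ) : ℝ) / ε)
    filter_upwards [h1, eventually_ge_atTop N2] with M hM hM2
    have h2 : Co g p p' M ≤ Sp (dil h p * dil h p') s0 q M + 2 * ((m1 + B + 1 : ℕ) : ℝ) := by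
      have h3 : Co g p p' M - Sp (dil h p * dil h p') s0 q M ≤
          ∑ m ∈ Ioc 0 M, if m < m1 + B + 1 then (2 : ℝ) else 0 := by
        unfold Co Sp
        rw [← Finset.sum_sub_distrib]
        refine Finset.sum_le_sum fun m _ => ?_
        split_ifs with h4 h5 h5
        · have h6 := hgle (p * m)
          have h7 := hgle (p' * m)
          have h8 : |g (p * m) * g (p' * m)| ≤ 1 := by
            rw [abs_mul]
            calc |g (p * m)| * |g (p' * m)| ≤ 1 * 1 := mul_le_mul h6 h7 (abs_nonneg _) zero_le_one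
              _ = 1 := by ring
          have h9 := lz_abs (eval (m : ℤ) (dil h p * dil h p'))
          have h10 := (abs_le.1 h8).2
          have h11 := (abs_le.1 h9.le).1
          linarith
        · have hpm : m ≤ p * m := Nat.le_mul_of_pos_left _ hp.pos
          have hpm' : m ≤ p' * m := Nat.le_mul_of_pos_left _ hp'.pos
          have h6 : g (p * m) * g (p' * m) = lz (eval (m : ℤ) (dil h p * dil h p')) := by
            rw [eval_mul, dil_eval, dil_eval, hg]
            simp only
            rw [if_pos ⟨(hcls m).2 h4, by omega⟩, if_pos ⟨(hcls' m).2 h4, by omega⟩]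
            have e1 : (((p * m : ℕ)) : ℤ) = (p : ℤ) * m := by push_cast; rfl
            have e2 : (((p' * m : ℕ)) : ℤ) = (p' : ℤ) * m := by push_cast; rfl
            rw [lz_mul]
            · rw [e1, e2]
            · rw [← e1]
              exact hm1 _ (by omega)
            · rw [← e2]
              exact hm1 _ (by omega)
          rw [h6, sub_self]
        · have h6 : g (p * m) = 0 := by
            rw [hg]
            simp only
            rw [if_neg (fun h => h4 ((hcls m).1 h.1))]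
          rw [h6]; norm_num
        · have h6 : g (p * m) = 0 := by
            rw [hg]
            simp only
            rw [if_neg (fun h => h4 ((hcls m).1 h.1))]
          rw [h6]; norm_num
      have h4 : ∑ m ∈ Ioc 0 M, (if m < m1 + B + 1 then (2 : ℝ) else 0) ≤ 2 * ((m1 + B + 1 : ℕ) : ℝ) := by
        rw [← Finset.sum_filter, Finset.sum_const, nsmul_eq_mul, mul_comm]
        have h5 : ((Ioc 0 M).filter fun m => m < m1 + B + 1) ⊆ Finset.range (m1 + B + 1) := by
          intro m hm
          rw [Finset.mem_range]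
          exact (Finset.mem_filter.1 hm).2
        have h6 := Finset.card_le_card h5
        rw [Finset.card_range] at h6
        have h7 : (((Ioc 0 M).filter fun m => m < m1 + B + 1).card : ℝ) ≤ ((m1 + B + 1 : ℕ) : ℝ) := by
          exact_mod_cast h6
        linarith
      linarith
    have h3 : 2 * ((m1 + B + 1 : ℕ) : ℝ) ≤ ε / 2 * M := by
      have h4 : 4 * ((m1 + B + 1 : ℕ) : ℝ) / ε ≤ M := hN2.trans (by exact_mod_cast hM2)
      rw [div_le_iff₀ hε] at h4
      linarith
    linarith
  · push Not at hex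
    have h0 : ∀ m, g (p * m) = 0 := by
      intro m
      rw [hg]
      simp only
      rw [if_neg (fun h => hex m h.1)]
    filter_upwards with M
    have h1 : Co g p p' M = 0 := by
      unfold Co
      refine Finset.sum_eq_zero fun m _ => ?_
      rw [h0, zero_mul]
    rw [h1]
    positivity

/-- polynomials with a linear factor of positive leading coefficient -/
theorem bound_lin_pos {l h : ℤ[X]} (hl : l.natDegree = 1) (hlp : 0 < l.leadingCoeff) (hf : (l * h).IsPrimitive)
    (hs : Squarefree (l * h)) {η : ℝ} (hη : 0 ≤ η)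
    (H : ∀ G K : ℤ[X], G.natDegree = h.natDegree → K.natDegree = h.natDegree → (G * K).IsPrimitive →
      Squarefree (G * K) → ∀ a q : ℕ, 0 < q → ∀ ε : ℝ, 0 < ε →
        ∀ᶠ N : ℕ in atTop, Sp (G * K) a q N ≤ (η / q + ε) * N) (a q : ℕ) (hq : 0 < q) :
    ∀ ε : ℝ, 0 < ε → ∀ᶠ N : ℕ in atTop, |Sp (l * h) a q N| ≤ (√η / q + ε) * N := by
  classical
  have hq0 : (0 : ℝ) < q := by exact_mod_cast hq
  obtain ⟨α, hα⟩ : ∃ α : ℕ, (α : ℤ) = l.leadingCoeff := ⟨l.leadingCoeff.toNat, by
    rw [Int.toNat_of_nonneg hlp.le]⟩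
  have hα1 : 0 < α := by
    have : (0 : ℤ) < α := by rw [hα]; exact hlp
    exact_mod_cast this
  have hα0 : (0 : ℝ) < α := by exact_mod_cast hα1
  have hlev : ∀ t : ℤ, l.eval t = α * t + l.coeff 0 := by
    intro t
    have h1 : l = C l.leadingCoeff * X + C (l.coeff 0) := by
      conv_lhs => rw [eq_X_add_C_of_natDegree_le_one hl.le]
      have : l.leadingCoeff = l.coeff 1 := by rw [leadingCoeff, hl]
      rw [this]
    rw [h1]
    simp only [eval_add, eval_mul, eval_C, eval_X]
    rw [hα]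
    simp
  obtain ⟨m0, hm0⟩ := ev_ne hf.ne_zero
  -- the shift
  obtain ⟨b, hb⟩ : ∃ b : ℕ, b = (m0 + (l.coeff 0).natAbs + 1) * q := ⟨_, rfl⟩
  have hbq : b % q = 0 := by rw [hb]; exact Nat.mul_mod_left _ _
  have hbm : m0 + (l.coeff 0).natAbs + 1 ≤ b := by rw [hb]; exact Nat.le_mul_of_pos_right _ hq
  have hBpos : 0 < (α : ℤ) * b + l.coeff 0 := by
    have h1 : (b : ℤ) ≤ α * b := by
      have : b ≤ α * b := Nat.le_mul_of_pos_left _ hα1
      exact_mod_cast this
    have h2 : ((l.coeff 0).natAbs : ℤ) + 1 ≤ b := by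
      have : (l.coeff 0).natAbs + 1 ≤ b := by omega
      exact_mod_cast this
    have h3 : -((l.coeff 0).natAbs : ℤ) ≤ l.coeff 0 := by
      have := neg_abs_le (l.coeff 0)
      rwa [Int.abs_eq_natAbs] at this
    linarith
  obtain ⟨B, hB⟩ : ∃ B : ℕ, (B : ℤ) = α * b + l.coeff 0 := ⟨((α : ℤ) * b + l.coeff 0).toNat, by
    rw [Int.toNat_of_nonneg hBpos.le]⟩
  -- the polynomial
  obtain ⟨h0, hh0⟩ : ∃ h0 : ℤ[X], h0 = taylor (b : ℤ) h := ⟨_, rfl⟩
  have hhp : h.IsPrimitive := isPrimitive_of_dvd hf (Dvd.intro_left _ rfl)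
  have hhs : Squarefree h := hs.squarefree_of_dvd (Dvd.intro_left _ rfl)
  have hh0p : h0.IsPrimitive := by rw [hh0]; exact taylor_prim hhp _
  have hh0s : Squarefree h0 := by rw [hh0]; exact taylor_sqf hhs _
  obtain ⟨k, hk⟩ : ∃ k : ℤ[X], k = sub h0 α B := ⟨_, rfl⟩
  have hkd : k.natDegree = h.natDegree := by rw [hk, sub_natDegree, hh0, natDegree_taylor]
  have hks : Squarefree k.primPart := by rw [hk]; exact sub_sqf (sqf_map hh0p hh0s) hα1 _
  have hkev : ∀ m : ℕ, k.eval (((α * m + B : ℕ)) : ℤ) = (α : ℤ) ^ h0.natDegree * h.eval ((m + b : ℕ) : ℤ) := by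
    intro m
    have h1 := sub_eval h0 α B m
    rw [hh0, taylor_eval] at h1
    rw [hk]
    push_cast
    rw [hh0] at *
    exact h1
  have hcont : k.content ≠ 0 := by
    rw [Ne, content_eq_zero_iff]
    intro h1
    have h2 := hkev 1
    rw [h1, eval_zero] at h2
    rcases mul_eq_zero.1 h2.symm with h3 | h3
    · exact absurd h3 (pow_ne_zero _ (by exact_mod_cast hα1.ne'))
    · have h4 := hm0 (1 + b) (by omega)
      rw [eval_mul, h3, mul_zero] at h4
      exact h4 rfl
  have hkc : ∀ x : ℤ, k.eval x = k.content * k.primPart.eval x := by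
    intro x
    conv_lhs => rw [k.eq_C_content_mul_primPart]
    rw [eval_mul, eval_C]
  have hk0 : k.primPart.coeff 0 ≠ 0 := by
    intro h1
    have h2 : k.eval 0 = 0 := by
      rw [hkc, ← coeff_zero_eq_eval_zero, h1, mul_zero]
    -- `l` divides `h` over the rationals
    have h3 : (h.map (algebraMap ℤ ℚ)).eval (-(l.coeff 0 : ℚ) / α) = 0 := by
      have e1 : (k.map (algebraMap ℤ ℚ)).eval 0 = 0 := by
        have := Polynomial.eval_intCast_map (algebraMap ℤ ℚ) k 0
        simp only [Int.cast_zero] at this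
        rw [this, h2]; simp
      rw [hk] at e1
      unfold sub at e1
      rw [map_taylor, taylor_eval, map_scaleRoots _ _ _ (by simpa using hh0p.ne_zero)] at e1
      have hαq : (α : ℚ) ≠ 0 := by exact_mod_cast hα1.ne'
      have e2 : (0 : ℚ) + (algebraMap ℤ ℚ) (-(B : ℤ)) = (algebraMap ℤ ℚ) (α : ℤ) * (-(B : ℚ) / α) := by
        simp; field_simp
      rw [e2, scaleRoots_eval_mul] at e1
      rcases mul_eq_zero.1 e1 with h4 | h4
      · exact absurd h4 (pow_ne_zero _ (by simpa using hα1.ne'))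
      · rw [hh0, map_taylor, taylor_eval] at h4
        have e3 : (-(B : ℚ) / α) + (algebraMap ℤ ℚ) (b : ℤ) = -(l.coeff 0 : ℚ) / α := by
          have e4 : (B : ℚ) = α * b + l.coeff 0 := by exact_mod_cast hB
          rw [e4]
          simp
          field_simp
          ring
        rwa [e3] at h4
    have h4 : (l.map (algebraMap ℤ ℚ)).eval (-(l.coeff 0 : ℚ) / α) = 0 := by
      have e1 : l.map (algebraMap ℤ ℚ) = C (α : ℚ) * X + C (l.coeff 0 : ℚ) := by
        have h1 : l = C l.leadingCoeff * X + C (l.coeff 0) := by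
          conv_lhs => rw [eq_X_add_C_of_natDegree_le_one hl.le]
          have : l.leadingCoeff = l.coeff 1 := by rw [leadingCoeff, hl]
          rw [this]
        conv_lhs => rw [h1]
        rw [Polynomial.map_add, Polynomial.map_mul, map_C, map_C, map_X, ← hα]
        simp
      rw [e1]
      have hαq : (α : ℚ) ≠ 0 := by exact_mod_cast hα1.ne'
      simp only [eval_add, eval_mul, eval_C, eval_X]
      field_simp
      ring
    have h5 : (X - C (-(l.coeff 0 : ℚ) / α)) * (X - C (-(l.coeff 0 : ℚ) / α)) ∣ (l * h).map (algebraMap ℤ ℚ) := by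
      rw [Polynomial.map_mul]
      exact mul_dvd_mul (dvd_iff_isRoot.2 h4) (dvd_iff_isRoot.2 h3)
    have h6 := sqf_map hf hs _ h5
    exact absurd h6 (not_isUnit_X_sub_C _)
  -- the functions
  obtain ⟨A, hA⟩ : ∃ A : ℕ, A = α * q := ⟨_, rfl⟩
  have hA1 : 0 < A := by rw [hA]; positivity
  have hA0 : (0 : ℝ) < A := by exact_mod_cast hA1
  obtain ⟨r, hr⟩ : ∃ r : ℕ, r = α * a + B := ⟨_, rfl⟩
  obtain ⟨g, hg⟩ : ∃ g : ℕ → ℝ, g = fun x => if x % A = r % A ∧ B < x then lz (k.primPart.eval (x : ℤ)) else 0 :=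
    ⟨_, rfl⟩
  have hgle : ∀ n, |g n| ≤ 1 := by
    intro n
    rw [hg]
    simp only
    split_ifs
    · rw [lz_abs]
    · simp
  have hgs : ∀ n, g n ≠ 0 → n % A = r % A := by
    intro n hn
    rw [hg] at hn
    simp only at hn
    by_contra h
    rw [if_neg (fun h' => h h'.1)] at hn
    exact hn rfl
  have hone := onesided (A := A) (r := r % A)
    (P0 := A + (k.primPart.coeff 0).natAbs + k.primPart.leadingCoeff.natAbs) hA1 hgle hgs
    (f := lam) (fun n => (lam_abs n).le) (fun m n hm hn => lam_mul hm hn) (s := -1) (fun p hp => lam_prime hp) hη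
    (fun p p' hp hp' hpp hpP hpP' hmod => core (isPrimitive_primPart _) hks hk0 hη
      (fun G K hG hK => H G K (by rw [hG, natDegree_primPart, hkd]) (by rw [hK, natDegree_primPart, hkd]))
      hA1 hg hp hp' hpp hpP hpP' hmod)
  -- the sum
  obtain ⟨σ, hσ⟩ : ∃ σ : ℝ, σ = lz ((α : ℤ) ^ h0.natDegree) * lz k.content := ⟨_, rfl⟩
  have hσ1 : |σ| = 1 := by rw [hσ, abs_mul, lz_abs, lz_abs, one_mul]
  have hval : ∀ m : ℕ, 1 ≤ m → lz ((l * h).eval ((m + b : ℕ) : ℤ)) =
      σ * (lam (α * m + B) * lz (k.primPart.eval (((α * m + B : ℕ)) : ℤ))) := by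
    intro m hm
    have e0 := hm0 (m + b) (by omega)
    rw [eval_mul] at e0 ⊢
    have e1 : h.eval ((m + b : ℕ) : ℤ) ≠ 0 := fun h => e0 (by rw [h, mul_zero])
    have e2 : l.eval ((m + b : ℕ) : ℤ) ≠ 0 := fun h => e0 (by rw [h, zero_mul])
    rw [lz_mul e2 e1]
    have e3 : l.eval ((m + b : ℕ) : ℤ) = ((α * m + B : ℕ) : ℤ) := by
      rw [hlev]; push_cast; rw [hB]; ring
    have e4 : lz (((α * m + B : ℕ)) : ℤ) = lam (α * m + B) := rfl
    have e5 := hkev m
    rw [hkc] at e5
    have e6 : k.primPart.eval (((α * m + B : ℕ)) : ℤ) ≠ 0 := by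
      intro h
      rw [h, mul_zero] at e5
      rcases mul_eq_zero.1 e5.symm with h3 | h3
      · exact absurd h3 (pow_ne_zero _ (by exact_mod_cast hα1.ne'))
      · exact e1 h3
    have e7 : lz k.content * lz (k.primPart.eval (((α * m + B : ℕ)) : ℤ)) =
        lz ((α : ℤ) ^ h0.natDegree) * lz (h.eval ((m + b : ℕ) : ℤ)) := by
      rw [← lz_mul hcont e6, e5, lz_mul (pow_ne_zero _ (by exact_mod_cast hα1.ne')) e1]
    rw [e3, e4, hσ]
    calc lam (α * m + B) * lz (h.eval ((m + b : ℕ) : ℤ))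
        = lam (α * m + B) * ((lz ((α : ℤ) ^ h0.natDegree) * lz ((α : ℤ) ^ h0.natDegree)) *
            lz (h.eval ((m + b : ℕ) : ℤ))) := by rw [lz_sq, one_mul]
      _ = lz ((α : ℤ) ^ h0.natDegree) * (lam (α * m + B) *
            (lz ((α : ℤ) ^ h0.natDegree) * lz (h.eval ((m + b : ℕ) : ℤ)))) := by ring
      _ = _ := by rw [← e7]; ring
  have hmain : ∀ N : ℕ, b ≤ N → Sp (l * h) a q N =
      ∑ t ∈ Ioc 0 b, (if t % q = a % q then lz ((l * h).eval (t : ℤ)) else 0) +
        σ * ∑ x ∈ Ioc 0 (α * (N - b) + B), lam x * g x := by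
    intro N hN
    unfold Sp
    rw [← Finset.sum_Ioc_consecutive _ (Nat.zero_le b) hN]
    congr 1
    have h5 := sum_class (A := 1) (s := b) (M := N)
      (F := fun t => if t % q = a % q then lz ((l * h).eval (t : ℤ)) else 0) le_rfl (fun m _ _ => by omega)
    rw [h5, Nat.div_one]
    have h6 : ∑ x ∈ Ioc 0 (α * (N - b) + B), lam x * g x = ∑ x ∈ Ioc B (α * (N - b) + B), lam x * g x := by
      rw [← Finset.sum_Ioc_consecutive _ (Nat.zero_le B) (by omega : B ≤ α * (N - b) + B)]
      have h2 : ∑ x ∈ Ioc 0 B, lam x * g x = 0 := by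
        refine Finset.sum_eq_zero fun x hx => ?_
        rw [Finset.mem_Ioc] at hx
        rw [hg]
        simp only
        rw [if_neg (fun h => by omega), mul_zero]
      rw [h2, zero_add]
    have h7 := sum_class (A := α) (s := B) (M := α * (N - b) + B) (F := fun x => lam x * g x) hα1
      (fun m hm hne => by
        have h8 := hgs m (fun h => hne (by rw [h, mul_zero]))
        have h9 : m % α = r % α := by
          have := congrArg (fun z => z % α) h8
          rwa [hA, Nat.mod_mul_right_mod, Nat.mod_mul_right_mod] at this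
        rw [h9, hr]
        simp)
    have h8 : (α * (N - b) + B - B) / α = N - b := by
      rw [Nat.add_sub_cancel]
      exact Nat.mul_div_cancel_left _ hα1
    rw [h8] at h7
    rw [h6, h7, Finset.mul_sum]
    refine Finset.sum_congr rfl fun m hm => ?_
    rw [Finset.mem_Ioc] at hm
    rw [one_mul, hg]
    simp only
    have h9 : (m + b) % q = m % q := by
      rw [Nat.add_mod, hbq, add_zero, Nat.mod_mod]
    have h10 : (α * m + B) % A = r % A ↔ m % q = a % q := by
      rw [hA, hr]
      constructor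
      · intro h
        have h11 : α * m ≡ α * a [MOD α * q] := Nat.ModEq.add_right_cancel' B h
        exact Nat.ModEq.mul_left_cancel' hα1.ne' h11
      · intro h
        exact Nat.ModEq.add_right B (Nat.ModEq.mul_left' α h)
    have h11 : B < α * m + B := by
      have : 0 < α * m := Nat.mul_pos hα1 hm.1
      omega
    rw [h9]
    by_cases h12 : m % q = a % q
    · rw [if_pos h12, if_pos ⟨h10.2 h12, h11⟩]
      exact hval m hm.1
    · rw [if_neg h12, if_neg (fun h => h12 (h10.1 h.1)), mul_zero, mul_zero]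
  intro ε hε
  obtain ⟨N1, hN1⟩ := eventually_atTop.1 (hone (ε / (2 * α)) (by positivity))
  obtain ⟨N2, hN2⟩ := exists_nat_ge (2 * ((b : ℝ) + (√η / A + ε / (2 * α)) * B) / ε)
  filter_upwards [eventually_ge_atTop (max (N1 + b) N2)] with N hN
  have hNb : N1 + b ≤ N := (le_max_left _ _).trans hN
  have h2 : (b : ℝ) + (√η / A + ε / (2 * α)) * B ≤ ε / 2 * N := by
    have h4 : 2 * ((b : ℝ) + (√η / A + ε / (2 * α)) * B) / ε ≤ N :=
      hN2.trans (by exact_mod_cast (le_max_right _ _).trans hN)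
    rw [div_le_iff₀ hε] at h4
    linarith
  have h3 := hN1 (α * (N - b) + B) (by
    have : N - b ≤ α * (N - b) := Nat.le_mul_of_pos_left _ hα1
    omega)
  have h5 : |∑ t ∈ Ioc 0 b, (if t % q = a % q then lz ((l * h).eval (t : ℤ)) else 0)| ≤ b := by
    refine (Finset.abs_sum_le_sum_abs _ _).trans ?_
    calc ∑ t ∈ Ioc 0 b, |if t % q = a % q then lz ((l * h).eval (t : ℤ)) else 0| ≤ ∑ t ∈ Ioc 0 b, (1 : ℝ) := by
          refine Finset.sum_le_sum fun t _ => ?_
          split_ifs
          · rw [lz_abs]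
          · simp
      _ = b := by simp
  rw [hmain N (by omega)]
  refine (abs_add_le _ _).trans ?_
  rw [abs_mul, hσ1, one_mul]
  have h6 : ((N - b : ℕ) : ℝ) ≤ N := by exact_mod_cast Nat.sub_le N b
  have h7 : (√η / A + ε / (2 * α)) * ((α * (N - b) + B : ℕ) : ℝ) ≤
      (√η / q + ε / 2) * N + (√η / A + ε / (2 * α)) * B := by
    push_cast
    have e1 : (√η / A + ε / (2 * α)) * ((α : ℝ) * ((N - b : ℕ) : ℝ) + B) =
        (√η / q + ε / 2) * ((N - b : ℕ) : ℝ) + (√η / A + ε / (2 * α)) * B := by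
      rw [hA]; push_cast; field_simp
    rw [e1]
    have e2 : (√η / q + ε / 2) * ((N - b : ℕ) : ℝ) ≤ (√η / q + ε / 2) * N :=
      mul_le_mul_of_nonneg_left h6 (by positivity)
    linarith
  linarith

end Pool.Agent.N805.CP
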